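import Mathlib
import Pool.Agent.W51.FCC.Defs

set_option autoImplicit false

/-!
Cycle-continuous mappings of finite graphs with loops and parallel edges.
-/

namespace Pool.Agent.W51.CCP

open Pool.Agent.H126R2.CDC (MGraph)

/-- `φ` is a `ℤ₂`-flow on `G`: at every vertex the values on the incident edges sum to `0`
(a loop contributes twice, hence nothing). -/
def IsFlow {V E : Type} [DecidableEq V] [Fintype E] (G : MGraph V E) (φ : E → ZMod 2) : Prop :=
  ∀ v : V, ∑ e, (if v ∈ G.ends e ∧ ¬ (G.ends e).IsDiag then φ e else 0) = 0

/-- `G → H`: there is a cycle-continuous map from the edges of `G` to the edges of `H`. -/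
def CC {V E V' E' : Type} [DecidableEq V] [Fintype E] [DecidableEq V'] [Fintype E']
    (G : MGraph V E) (H : MGraph V' E') : Prop :=
  ∃ f : E → E', ∀ φ : E' → ZMod 2, IsFlow H φ → IsFlow G (φ ∘ f)

/-- Disjoint union of `G` and the graph with two vertices joined by parallel edges indexed
by `F`. -/
def addT {V E : Type} (G : MGraph V E) (F : Type) : MGraph (V ⊕ Bool) (E ⊕ F) where
  ends := Sum.elim (fun e => (G.ends e).map Sum.inl) (fun _ => s(Sum.inr false, Sum.inr true))

end Pool.Agent.W51.CCP
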