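import Mathlib
import Pool.Agent.W51.CCP.Defs

set_option autoImplicit false

namespace Pool.Agent.W51.CCP

open Pool.Agent.H126R2.CDC (MGraph)
open Pool.Agent.W51.FCC (cut)
open Finset

variable {V E V' E' : Type} [Fintype V] [DecidableEq V] [Fintype E] [DecidableEq E]
  [Fintype V'] [DecidableEq V'] [Fintype E'] [DecidableEq E']

lemma edge_sum (G : MGraph V E) (X : Finset V) (e : E) (c : ZMod 2) :
    ∑ v ∈ X, (if v ∈ G.ends e ∧ ¬ (G.ends e).IsDiag then c else 0)
      = if e ∈ cut G X then c else 0 := by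
  rw [show (if e ∈ cut G X then c else 0)
      = if ((∃ v ∈ G.ends e, v ∈ X) ∧ ∃ v ∈ G.ends e, v ∉ X) then c else 0 from
      if_congr (by unfold cut; rw [Finset.mem_filter]; simp only [Finset.mem_univ, true_and]) rfl rfl]
  generalize G.ends e = q
  induction q using Sym2.ind with
  | _ a b =>
    simp only [Sym2.mem_iff, Sym2.mk_isDiag_iff, exists_eq_or_imp, exists_eq_left]
    by_cases hab : a = b
    · subst hab
      simp
    · have h1 : ∀ v ∈ X, (if (v = a ∨ v = b) ∧ ¬ a = b then c else 0)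
          = (if v = a then c else 0) + (if v = b then c else 0) := by
        intro v _
        by_cases ha : v = a
        · subst ha
          simp [hab]
        · by_cases hb : v = b
          · subst hb
            simp [ha, hab]
          · simp [ha, hb]
      rw [Finset.sum_congr rfl h1, Finset.sum_add_distrib, Finset.sum_ite_eq', Finset.sum_ite_eq']
      have hcc : c + c = 0 := CharTwo.add_self_eq_zero c
      by_cases ha : a ∈ X <;> by_cases hb : b ∈ X <;> simp [ha, hb, hcc]

lemma orth (G : MGraph V E) (φ : E → ZMod 2) (h : IsFlow G φ) (X : Finset V) :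
    ∑ e ∈ cut G X, φ e = 0 := by
  have h1 : ∑ v ∈ X, ∑ e, (if v ∈ G.ends e ∧ ¬ (G.ends e).IsDiag then φ e else 0) = 0 :=
    Finset.sum_eq_zero fun v _ => h v
  rw [Finset.sum_comm] at h1
  rw [Finset.sum_congr rfl (fun e _ => edge_sum G X e (φ e)), Finset.sum_ite_mem,
    Finset.univ_inter] at h1
  exact h1

/-- the boundary map -/
def bd (G : MGraph V E) : (E → ZMod 2) →ₗ[ZMod 2] (V → ZMod 2) where
  toFun φ := fun v => ∑ e, (if v ∈ G.ends e ∧ ¬ (G.ends e).IsDiag then φ e else 0)
  map_add' φ ψ := by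
    ext v
    simp only [Pi.add_apply]
    rw [← Finset.sum_add_distrib]
    refine Finset.sum_congr rfl fun e _ => ?_
    split <;> simp
  map_smul' c φ := by
    ext v
    simp only [Pi.smul_apply, smul_eq_mul, RingHom.id_apply]
    rw [Finset.mul_sum]
    refine Finset.sum_congr rfl fun e _ => ?_
    split <;> simp

lemma exists_cut (G : MGraph V E) (z : E → ZMod 2)
    (h : ∀ φ : E → ZMod 2, IsFlow G φ → ∑ e, z e * φ e = 0) :
    ∃ X : Finset V, ∀ e, z e = if e ∈ cut G X then 1 else 0 := by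
  classical
  let ℓ : Module.Dual (ZMod 2) (E → ZMod 2) :=
    { toFun := fun φ => ∑ e, z e * φ e
      map_add' := fun φ ψ => by
        rw [← Finset.sum_add_distrib]
        exact Finset.sum_congr rfl fun e _ => by simp [mul_add]
      map_smul' := fun c φ => by
        simp only [Pi.smul_apply, smul_eq_mul, RingHom.id_apply]
        rw [Finset.mul_sum]
        exact Finset.sum_congr rfl fun e _ => by ring }
  have hℓ : ℓ ∈ (LinearMap.ker (bd G)).dualAnnihilator := by
    rw [Submodule.mem_dualAnnihilator]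
    intro φ hφ
    apply h φ
    intro v
    exact congrFun (LinearMap.mem_ker.1 hφ) v
  rw [← LinearMap.range_dualMap_eq_dualAnnihilator_ker] at hℓ
  obtain ⟨ψ, hψ⟩ := hℓ
  refine ⟨univ.filter (fun v => ψ (Pi.single v 1) = 1), fun e => ?_⟩
  have h1 : z e = ψ (bd G (Pi.single e 1)) := by
    have h2 : ℓ (Pi.single e 1) = z e := by
      show ∑ e', z e' * (Pi.single e (1 : ZMod 2) : E → ZMod 2) e' = z e
      simp [Pi.single_apply]
    rw [← h2, ← hψ]
    rfl
  have h3 : bd G (Pi.single e 1)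
      = fun v => if v ∈ G.ends e ∧ ¬ (G.ends e).IsDiag then (1 : ZMod 2) else 0 := by
    ext v
    show ∑ e', (if v ∈ G.ends e' ∧ ¬ (G.ends e').IsDiag then
      (Pi.single e (1 : ZMod 2) : E → ZMod 2) e' else 0) = _
    rw [Finset.sum_eq_single e]
    · simp
    · intro e' _ hne
      simp [Pi.single_eq_of_ne hne]
    · intro hn; exact absurd (mem_univ e) hn
  rw [h1, h3, ← edge_sum G _ e 1, Finset.sum_filter]
  rw [LinearMap.pi_apply_eq_sum_univ ψ]
  refine Finset.sum_congr rfl fun v _ => ?_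
  have h4 : (fun j => if v = j then (1 : ZMod 2) else 0) = Pi.single v 1 := by
    ext j
    by_cases hj : v = j
    · subst hj; simp
    · simp [hj, Ne.symm hj]
  rw [h4]
  have h5 : ∀ t : ZMod 2, t = 0 ∨ t = 1 := by decide
  rcases h5 (ψ (Pi.single v 1)) with h6 | h6
  · rw [h6]; simp
  · rw [h6]; simp

/-- An odd cut of `G` gives an odd cut of `H` which is at most as large. -/
lemma mono (G : MGraph V E) (H : MGraph V' E') (h : CC G H) (X : Finset V)
    (hX : Odd (cut G X).card) :
    ∃ Y : Finset V', Odd (cut H Y).card ∧ (cut H Y).card ≤ (cut G X).card := by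
  obtain ⟨f, hf⟩ := h
  obtain ⟨Y, hY⟩ := exists_cut H (fun e' => ∑ e ∈ cut G X, if f e = e' then 1 else 0) (by
    intro φ hφ
    have h1 := orth G _ (hf φ hφ) X
    refine Eq.trans ?_ h1
    simp only [Finset.sum_mul]
    rw [Finset.sum_comm]
    refine Finset.sum_congr rfl fun e _ => ?_
    simp)
  refine ⟨Y, ?_, ?_⟩
  · have h2 : (((cut H Y).card : ℕ) : ZMod 2) = (((cut G X).card : ℕ) : ZMod 2) := by
      have h3 : ∑ e', (∑ e ∈ cut G X, if f e = e' then (1 : ZMod 2) else 0)
          = ∑ e', (if e' ∈ cut H Y then (1 : ZMod 2) else 0) :=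
        Finset.sum_congr rfl fun e' _ => hY e'
      rw [Finset.sum_comm] at h3
      simp at h3
      exact h3.symm
    rw [← ZMod.natCast_ne_zero_iff_odd] at hX ⊢
    rw [h2]; exact hX
  · have hsub : cut H Y ⊆ (cut G X).image f := by
      intro e' he'
      have h4 := hY e'
      rw [if_pos he'] at h4
      by_contra hne
      apply one_ne_zero (α := ZMod 2)
      rw [← h4]
      refine Finset.sum_eq_zero fun e he => ?_
      rw [if_neg]
      intro h5
      exact hne (Finset.mem_image.2 ⟨e, he, h5⟩)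
    exact (Finset.card_le_card hsub).trans Finset.card_image_le

lemma inl_mem {F : Type} (G : MGraph V E) (v : V) (e : E) :
    (Sum.inl v ∈ (addT G F).ends (Sum.inl e) ∧ ¬ ((addT G F).ends (Sum.inl e)).IsDiag)
      ↔ (v ∈ G.ends e ∧ ¬ (G.ends e).IsDiag) := by
  show (Sum.inl v ∈ (G.ends e).map Sum.inl ∧ ¬ ((G.ends e).map Sum.inl).IsDiag) ↔ _
  generalize G.ends e = q
  induction q using Sym2.ind with
  | _ a b =>
    simp [Sym2.map_mk, Sym2.mem_iff]

lemma inr_mem {F : Type} (G : MGraph V E) (t : Bool) (e : E) :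
    ¬ (Sum.inr t ∈ (addT G F).ends (Sum.inl e)) := by
  show ¬ (Sum.inr t ∈ (G.ends e).map Sum.inl)
  generalize G.ends e = q
  induction q using Sym2.ind with
  | _ a b =>
    simp [Sym2.map_mk, Sym2.mem_iff]

lemma inl_mem' {F : Type} (G : MGraph V E) (v : V) (i : F) :
    ¬ (Sum.inl v ∈ (addT G F).ends (Sum.inr i)) := by
  show ¬ (Sum.inl v ∈ s(Sum.inr false, Sum.inr true))
  simp

lemma inr_mem' {F : Type} (G : MGraph V E) (t : Bool) (i : F) :
    (Sum.inr t ∈ (addT G F).ends (Sum.inr i) ∧ ¬ ((addT G F).ends (Sum.inr i)).IsDiag) := by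
  show (Sum.inr t ∈ s(Sum.inr false, Sum.inr true) ∧
    ¬ (s((Sum.inr false : V ⊕ Bool), Sum.inr true)).IsDiag)
  cases t <;> simp

lemma cc_addT {F : Type} [Fintype F] [DecidableEq F] (G : MGraph V E) : CC G (addT G F) := by
  refine ⟨Sum.inl, fun φ hφ v => ?_⟩
  have h := hφ (Sum.inl v)
  rw [Fintype.sum_sum_type] at h
  have h2 : ∑ i : F, (if (Sum.inl v ∈ (addT G F).ends (Sum.inr i) ∧
      ¬ ((addT G F).ends (Sum.inr i)).IsDiag) then φ (Sum.inr i) else 0) = 0 :=
    Finset.sum_eq_zero fun i _ => if_neg (fun hh => inl_mem' G v i hh.1)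
  rw [h2, add_zero] at h
  refine Eq.trans ?_ h
  refine Finset.sum_congr rfl fun e _ => ?_
  exact if_congr (inl_mem G v e).symm rfl rfl

/-- The map from the disjoint union with a bundle. -/
lemma addT_cc {F : Type} [Fintype F] [DecidableEq F] (G : MGraph V E) (H : MGraph V' E')
    (h : CC G H) (g : F → E') (hg : ∀ φ, IsFlow H φ → ∑ i, φ (g i) = 0) : CC (addT G F) H := by
  obtain ⟨f, hf⟩ := h
  refine ⟨Sum.elim f g, fun φ hφ v => ?_⟩
  rw [Fintype.sum_sum_type]
  rcases v with v | t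
  · have h2 : ∑ i : F, (if (Sum.inl v ∈ (addT G F).ends (Sum.inr i) ∧
        ¬ ((addT G F).ends (Sum.inr i)).IsDiag) then (φ ∘ Sum.elim f g) (Sum.inr i) else 0) = 0 :=
      Finset.sum_eq_zero fun i _ => if_neg (fun hh => inl_mem' G v i hh.1)
    rw [h2, add_zero]
    refine Eq.trans ?_ (hf φ hφ v)
    refine Finset.sum_congr rfl fun e _ => ?_
    exact if_congr (inl_mem G v e) rfl rfl
  · have h2 : ∑ e : E, (if (Sum.inr t ∈ (addT G F).ends (Sum.inl e) ∧
        ¬ ((addT G F).ends (Sum.inl e)).IsDiag) then (φ ∘ Sum.elim f g) (Sum.inl e) else 0) = 0 :=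
      Finset.sum_eq_zero fun e _ => if_neg (fun hh => inr_mem G t e hh.1)
    rw [h2, zero_add]
    refine Eq.trans ?_ (hg φ hφ)
    refine Finset.sum_congr rfl fun i _ => ?_
    exact if_pos (inr_mem' G t i)

lemma mem_cut_inl {F : Type} [Fintype F] [DecidableEq F] (G : MGraph V E)
    (Y : Finset (V ⊕ Bool)) (e : E) :
    (Sum.inl e : E ⊕ F) ∈ cut (addT G F) Y ↔ e ∈ cut G (univ.filter (fun v => Sum.inl v ∈ Y)) := by
  unfold cut
  rw [Finset.mem_filter, Finset.mem_filter]
  simp only [Finset.mem_univ, true_and, Finset.mem_filter]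
  show ((∃ v ∈ (G.ends e).map Sum.inl, v ∈ Y) ∧ ∃ v ∈ (G.ends e).map Sum.inl, v ∉ Y) ↔ _
  generalize G.ends e = q
  induction q using Sym2.ind with
  | _ a b =>
    simp [Sym2.map_mk, Sym2.mem_iff]

lemma mem_cut_inr {F : Type} [Fintype F] [DecidableEq F] (G : MGraph V E)
    (Y : Finset (V ⊕ Bool)) (i : F) :
    (Sum.inr i : E ⊕ F) ∈ cut (addT G F) Y ↔ ¬ (Sum.inr false ∈ Y ↔ Sum.inr true ∈ Y) := by
  unfold cut
  rw [Finset.mem_filter]
  simp only [Finset.mem_univ, true_and]
  show ((∃ v ∈ s(Sum.inr false, Sum.inr true), v ∈ Y) ∧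
    ∃ v ∈ s((Sum.inr false : V ⊕ Bool), Sum.inr true), v ∉ Y) ↔ _
  simp only [Sym2.mem_iff, exists_eq_or_imp, exists_eq_left]
  tauto

lemma card_cut {F : Type} [Fintype F] [DecidableEq F] (G : MGraph V E) (Y : Finset (V ⊕ Bool)) :
    (cut (addT G F) Y).card = (cut G (univ.filter (fun v => Sum.inl v ∈ Y))).card
      + if (Sum.inr false ∈ Y ↔ Sum.inr true ∈ Y) then 0 else Fintype.card F := by
  have h1 : cut (addT G F) Y = ((cut G (univ.filter (fun v => Sum.inl v ∈ Y))).map
      ⟨Sum.inl, Sum.inl_injective⟩) ∪ ((univ.filter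
        (fun _ : F => ¬ (Sum.inr false ∈ Y ↔ Sum.inr true ∈ Y))).map
        ⟨Sum.inr, Sum.inr_injective⟩) := by
    ext x
    rcases x with e | i
    · rw [mem_cut_inl]; simp
    · rw [mem_cut_inr]
      by_cases h : (Sum.inr false ∈ Y ↔ Sum.inr true ∈ Y) <;> simp [h]
  rw [h1, Finset.card_union_of_disjoint, Finset.card_map, Finset.card_map]
  · congr 1
    by_cases h : (Sum.inr false ∈ Y ↔ Sum.inr true ∈ Y)
    · simp [h]
    · rw [if_neg h, Finset.filter_true_of_mem (fun _ _ => h), Finset.card_univ]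
  · rw [Finset.disjoint_left]
    intro x hx hy
    rw [Finset.mem_map] at hx hy
    obtain ⟨a, _, rfl⟩ := hx
    obtain ⟨b, _, hb⟩ := hy
    exact Sum.inr_ne_inl hb

/-- Main step. -/
theorem between (a : MGraph V E) (b : MGraph V' E') (hab : CC a b) (X : Finset V')
    (hX : Odd (cut b X).card) (ha : ∀ Y, Odd (cut a Y).card → (cut b X).card + 4 ≤ (cut a Y).card) :
    ∃ (F : Type) (_ : Fintype F) (_ : DecidableEq F),
      CC a (addT a F) ∧ ¬ CC (addT a F) a ∧ CC (addT a F) b ∧ ¬ CC b (addT a F) := by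
  obtain ⟨e0, he0⟩ : (cut b X).Nonempty := by
    rw [← Finset.card_pos]; exact hX.pos
  have hcard : Fintype.card ({e // e ∈ cut b X} ⊕ Bool) = (cut b X).card + 2 := by
    rw [Fintype.card_sum, Fintype.card_coe]; rfl
  refine ⟨{e // e ∈ cut b X} ⊕ Bool, inferInstance, inferInstance, cc_addT a, ?_, ?_, ?_⟩
  · intro h
    obtain ⟨Y, hY1, hY2⟩ := mono _ _ h {Sum.inr true} (by
      rw [card_cut, hcard]
      have h0 : (univ.filter (fun v : V => (Sum.inl v : V ⊕ Bool) ∈
          ({Sum.inr true} : Finset (V ⊕ Bool)))) = ∅ := by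
        ext v; simp
      rw [h0]
      have h1 : cut a (∅ : Finset V) = ∅ := by
        unfold cut
        ext e; simp
      rw [h1]
      simp only [Finset.card_empty, zero_add]
      rw [if_neg (by simp)]
      obtain ⟨r, hr⟩ := hX
      exact ⟨r + 1, by omega⟩)
    have h2 := ha Y hY1
    rw [card_cut, hcard] at hY2
    have h0 : (univ.filter (fun v : V => (Sum.inl v : V ⊕ Bool) ∈
        ({Sum.inr true} : Finset (V ⊕ Bool)))) = ∅ := by
      ext v; simp
    rw [h0] at hY2
    have h1 : cut a (∅ : Finset V) = ∅ := by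
      unfold cut
      ext e; simp
    rw [h1, Finset.card_empty, zero_add, if_neg (by simp)] at hY2
    omega
  · refine addT_cc a b hab (Sum.elim Subtype.val (fun _ => e0)) fun φ hφ => ?_
    rw [Fintype.sum_sum_type]
    have h1 := orth b φ hφ X
    have h2 : ∑ x : {e // e ∈ cut b X}, φ (Sum.elim Subtype.val (fun _ : Bool => e0) (Sum.inl x))
        = ∑ e ∈ cut b X, φ e := Finset.sum_coe_sort (cut b X) φ
    rw [h2, h1, zero_add]
    have h3 : (2 : ZMod 2) = 0 := by decide
    simp [h3]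
  · intro h
    obtain ⟨Y, hY1, hY2⟩ := mono _ _ h X hX
    rw [card_cut, hcard] at hY1 hY2
    by_cases hs : ((Sum.inr false : V ⊕ Bool) ∈ Y ↔ Sum.inr true ∈ Y)
    · rw [if_pos hs, add_zero] at hY1 hY2
      have := ha _ hY1
      omega
    · rw [if_neg hs] at hY2
      omega

end Pool.Agent.W51.CCP
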