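import Mathlib
import Pool.Agent.W51.CCP.Main

set_option autoImplicit false

namespace Pool.Agent.W51.CCP

open Pool.Agent.H126R2.CDC (MGraph)
open Pool.Agent.W51.FCC (cut)
open Finset

variable {V E V' E' : Type} [Fintype V] [DecidableEq V] [Fintype E] [DecidableEq E]
  [Fintype V'] [DecidableEq V'] [Fintype E'] [DecidableEq E']

/-- A graph without odd cuts maps to every graph with an edge. -/
lemma eulerian_cc (G : MGraph V E) (H : MGraph V' E') [hne : Nonempty E']
    (h : ∀ X, ¬ Odd (cut G X).card) : CC G H := by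
  obtain ⟨e0⟩ := hne
  refine ⟨fun _ => e0, fun φ _ v => ?_⟩
  show ∑ e, (if v ∈ G.ends e ∧ ¬ (G.ends e).IsDiag then φ e0 else 0) = 0
  have h1 : ∀ e, (if v ∈ G.ends e ∧ ¬ (G.ends e).IsDiag then φ e0 else 0)
      = if e ∈ cut G {v} then φ e0 else 0 := by
    intro e
    rw [← edge_sum G {v} e (φ e0), Finset.sum_singleton]
  rw [Finset.sum_congr rfl (fun e _ => h1 e), Finset.sum_ite_mem, Finset.univ_inter,
    Finset.sum_const]
  obtain ⟨r, hr⟩ := Nat.not_odd_iff_even.1 (h {v})
  rw [hr, add_smul]
  exact CharTwo.add_self_eq_zero _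

/-- The bundle of `s` edges maps to a graph with a cut of size `s`. -/
lemma bundle_cc (a : MGraph V E) (b : MGraph V' E') (hab : CC a b) (X : Finset V') :
    CC (addT a (Fin (cut b X).card)) b := by
  refine addT_cc a b hab (fun i => ((cut b X).equivFin.symm i : E')) fun φ hφ => ?_
  rw [Equiv.sum_comp (cut b X).equivFin.symm (fun x => φ (x : E'))]
  exact (Finset.sum_coe_sort (cut b X) φ).trans (orth b φ hφ X)

/-- Structure of empty intervals. -/
theorem gap (a : MGraph V E) (b : MGraph V' E') [Nonempty E] [Nonempty E']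
    (hab : CC a b) (hba : ¬ CC b a)
    (hempty : ∀ (W F : Type) [Fintype W] [DecidableEq W] [Fintype F] [DecidableEq F] [Nonempty F]
      (x : MGraph W F), CC a x → CC x b → CC x a ∨ CC b x) :
    ∃ s : ℕ, Odd s ∧ (∃ X, (cut b X).card = s) ∧ (∀ X, Odd (cut b X).card → s ≤ (cut b X).card) ∧
      (∀ Y, Odd (cut a Y).card → s ≤ (cut a Y).card) ∧
      ((∃ Y, (cut a Y).card = s) ∨
        ((∃ Y, (cut a Y).card = s + 2) ∧ (∀ Y, Odd (cut a Y).card → s + 2 ≤ (cut a Y).card) ∧
          CC b (addT a (Fin s)) ∧ CC (addT a (Fin s)) b)) := by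
  classical
  have hex : ∃ X, Odd (cut b X).card := by
    by_contra hcon
    push Not at hcon
    exact hba (eulerian_cc b a (fun X => by simpa using hcon X))
  obtain ⟨X0, hX0⟩ := hex
  obtain ⟨X, hX, hmin⟩ := Finset.exists_min_image
    ((univ : Finset (Finset V')).filter (fun X => Odd (cut b X).card)) (fun X => (cut b X).card)
    ⟨X0, Finset.mem_filter.2 ⟨mem_univ _, hX0⟩⟩
  have hXo : Odd (cut b X).card := (Finset.mem_filter.1 hX).2
  have hb : ∀ Y, Odd (cut b Y).card → (cut b X).card ≤ (cut b Y).card := fun Y hY =>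
    hmin Y (Finset.mem_filter.2 ⟨mem_univ _, hY⟩)
  have ha : ∀ Y, Odd (cut a Y).card → (cut b X).card ≤ (cut a Y).card := by
    intro Y hY
    obtain ⟨Z, hZ1, hZ2⟩ := mono a b hab Y hY
    exact (hb Z hZ1).trans hZ2
  refine ⟨(cut b X).card, hXo, ⟨X, rfl⟩, hb, ha, ?_⟩
  by_cases h1 : ∃ Y, (cut a Y).card = (cut b X).card
  · exact Or.inl h1
  · right
    push Not at h1
    have ha2 : ∀ Y, Odd (cut a Y).card → (cut b X).card + 2 ≤ (cut a Y).card := by
      intro Y hY
      have h2 := ha Y hY
      have h3 := h1 Y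
      obtain ⟨r, hr⟩ := hY
      obtain ⟨t, ht⟩ := hXo
      omega
    refine ⟨?_, ha2, ?_, bundle_cc a b hab X⟩
    · by_contra hcon
      push Not at hcon
      obtain ⟨F, i1, i2, c1, c2, c3, c4⟩ := between a b hab X hXo (by
        intro Y hY
        have h2 := ha2 Y hY
        have h3 := hcon Y
        obtain ⟨r, hr⟩ := hY
        obtain ⟨t, ht⟩ := hXo
        omega)
      rcases hempty _ _ (addT a F) c1 c3 with h | h
      · exact c2 h
      · exact c4 h
    · have hpos : 0 < (cut b X).card := hXo.pos
      rcases hempty _ _ (addT a (Fin (cut b X).card)) (cc_addT a) (bundle_cc a b hab X) with h | h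
      · exfalso
        obtain ⟨Y, hY1, hY2⟩ := mono _ _ h {Sum.inr true} (by
          rw [card_cut, Fintype.card_fin]
          have h0 : (univ.filter (fun v : V => (Sum.inl v : V ⊕ Bool) ∈
              ({Sum.inr true} : Finset (V ⊕ Bool)))) = ∅ := by
            ext v; simp
          rw [h0]
          have h1 : cut a (∅ : Finset V) = ∅ := by
            unfold cut
            ext e; simp
          rw [h1]
          simp only [Finset.card_empty, zero_add]
          rw [if_neg (by simp)]
          exact hXo)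
        rw [card_cut, Fintype.card_fin] at hY2
        have h0 : (univ.filter (fun v : V => (Sum.inl v : V ⊕ Bool) ∈
            ({Sum.inr true} : Finset (V ⊕ Bool)))) = ∅ := by
          ext v; simp
        rw [h0] at hY2
        have h1 : cut a (∅ : Finset V) = ∅ := by
          unfold cut
          ext e; simp
        rw [h1, Finset.card_empty, zero_add, if_neg (by simp)] at hY2
        have := ha2 Y hY1
        omega
      · exact h

end Pool.Agent.W51.CCP
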