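import Mathlib
import Pool.Agent.W51.CCP.Gap

set_option autoImplicit false

namespace Pool.Agent.W51.CCP

open Pool.Agent.H126R2.CDC (MGraph)
open Pool.Agent.W51.FCC (cut)
open Finset

variable {V E V' E' : Type} [Fintype V] [DecidableEq V] [Fintype E] [DecidableEq E]
  [Fintype V'] [DecidableEq V'] [Fintype E'] [DecidableEq E']

/-- Disjoint union. -/
def dsum (G : MGraph V E) (H : MGraph V' E') : MGraph (V ⊕ V') (E ⊕ E') where
  ends := Sum.elim (fun e => (G.ends e).map Sum.inl) (fun e => (H.ends e).map Sum.inr)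

lemma d_ll (G : MGraph V E) (H : MGraph V' E') (v : V) (e : E) :
    (Sum.inl v ∈ (dsum G H).ends (Sum.inl e) ∧ ¬ ((dsum G H).ends (Sum.inl e)).IsDiag)
      ↔ (v ∈ G.ends e ∧ ¬ (G.ends e).IsDiag) := by
  show (Sum.inl v ∈ (G.ends e).map Sum.inl ∧ ¬ ((G.ends e).map Sum.inl).IsDiag) ↔ _
  generalize G.ends e = q
  induction q using Sym2.ind with
  | _ a b => simp [Sym2.map_mk, Sym2.mem_iff]

lemma d_rr (G : MGraph V E) (H : MGraph V' E') (v : V') (e : E') :
    (Sum.inr v ∈ (dsum G H).ends (Sum.inr e) ∧ ¬ ((dsum G H).ends (Sum.inr e)).IsDiag)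
      ↔ (v ∈ H.ends e ∧ ¬ (H.ends e).IsDiag) := by
  show (Sum.inr v ∈ (H.ends e).map Sum.inr ∧ ¬ ((H.ends e).map Sum.inr).IsDiag) ↔ _
  generalize H.ends e = q
  induction q using Sym2.ind with
  | _ a b => simp [Sym2.map_mk, Sym2.mem_iff]

lemma d_rl (G : MGraph V E) (H : MGraph V' E') (v : V') (e : E) :
    ¬ (Sum.inr v ∈ (dsum G H).ends (Sum.inl e)) := by
  show ¬ (Sum.inr v ∈ (G.ends e).map Sum.inl)
  generalize G.ends e = q
  induction q using Sym2.ind with
  | _ a b => simp [Sym2.map_mk, Sym2.mem_iff]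

lemma d_lr (G : MGraph V E) (H : MGraph V' E') (v : V) (e : E') :
    ¬ (Sum.inl v ∈ (dsum G H).ends (Sum.inr e)) := by
  show ¬ (Sum.inl v ∈ (H.ends e).map Sum.inr)
  generalize H.ends e = q
  induction q using Sym2.ind with
  | _ a b => simp [Sym2.map_mk, Sym2.mem_iff]

lemma flow_l (G : MGraph V E) (H : MGraph V' E') (φ : E ⊕ E' → ZMod 2) (v : V) :
    ∑ e, (if Sum.inl v ∈ (dsum G H).ends e ∧ ¬ ((dsum G H).ends e).IsDiag then φ e else 0)
      = ∑ e, (if v ∈ G.ends e ∧ ¬ (G.ends e).IsDiag then φ (Sum.inl e) else 0) := by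
  rw [Fintype.sum_sum_type]
  have h2 : ∑ i : E', (if (Sum.inl v ∈ (dsum G H).ends (Sum.inr i) ∧
      ¬ ((dsum G H).ends (Sum.inr i)).IsDiag) then φ (Sum.inr i) else 0) = 0 :=
    Finset.sum_eq_zero fun i _ => if_neg (fun hh => d_lr G H v i hh.1)
  rw [h2, add_zero]
  exact Finset.sum_congr rfl fun e _ => if_congr (d_ll G H v e) rfl rfl

lemma flow_r (G : MGraph V E) (H : MGraph V' E') (φ : E ⊕ E' → ZMod 2) (v : V') :
    ∑ e, (if Sum.inr v ∈ (dsum G H).ends e ∧ ¬ ((dsum G H).ends e).IsDiag then φ e else 0)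
      = ∑ e, (if v ∈ H.ends e ∧ ¬ (H.ends e).IsDiag then φ (Sum.inr e) else 0) := by
  rw [Fintype.sum_sum_type]
  have h2 : ∑ i : E, (if (Sum.inr v ∈ (dsum G H).ends (Sum.inl i) ∧
      ¬ ((dsum G H).ends (Sum.inl i)).IsDiag) then φ (Sum.inl i) else 0) = 0 :=
    Finset.sum_eq_zero fun i _ => if_neg (fun hh => d_rl G H v i hh.1)
  rw [h2, zero_add]
  exact Finset.sum_congr rfl fun e _ => if_congr (d_rr G H v e) rfl rfl

lemma cc_inl (G : MGraph V E) (H : MGraph V' E') : CC G (dsum G H) :=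
  ⟨Sum.inl, fun φ hφ v => (flow_l G H φ v).symm.trans (hφ (Sum.inl v))⟩

lemma cc_inr (G : MGraph V E) (H : MGraph V' E') : CC H (dsum G H) :=
  ⟨Sum.inr, fun φ hφ v => (flow_r G H φ v).symm.trans (hφ (Sum.inr v))⟩

lemma cc_elim {V'' E'' : Type} [Fintype V''] [DecidableEq V''] [Fintype E''] [DecidableEq E'']
    (G : MGraph V E) (H : MGraph V' E') (K : MGraph V'' E'') (h1 : CC G K) (h2 : CC H K) :
    CC (dsum G H) K := by
  obtain ⟨f, hf⟩ := h1
  obtain ⟨g, hg⟩ := h2
  refine ⟨Sum.elim f g, fun φ hφ v => ?_⟩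
  rcases v with v | v
  · exact (flow_l G H _ v).trans (hf φ hφ v)
  · exact (flow_r G H _ v).trans (hg φ hφ v)

lemma cc_trans {V'' E'' : Type} [Fintype V''] [DecidableEq V''] [Fintype E''] [DecidableEq E'']
    (G : MGraph V E) (H : MGraph V' E') (K : MGraph V'' E'') (h1 : CC G H) (h2 : CC H K) :
    CC G K := by
  obtain ⟨f, hf⟩ := h1
  obtain ⟨g, hg⟩ := h2
  exact ⟨g ∘ f, fun φ hφ => hf _ (hg φ hφ)⟩

lemma mem_cut_l (G : MGraph V E) (H : MGraph V' E') (Y : Finset (V ⊕ V')) (e : E) :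
    Sum.inl e ∈ cut (dsum G H) Y ↔ e ∈ cut G (univ.filter (fun v => Sum.inl v ∈ Y)) := by
  unfold cut
  rw [Finset.mem_filter, Finset.mem_filter]
  simp only [Finset.mem_univ, true_and, Finset.mem_filter]
  show ((∃ v ∈ (G.ends e).map Sum.inl, v ∈ Y) ∧ ∃ v ∈ (G.ends e).map Sum.inl, v ∉ Y) ↔ _
  generalize G.ends e = q
  induction q using Sym2.ind with
  | _ a b => simp [Sym2.map_mk, Sym2.mem_iff]

lemma mem_cut_r (G : MGraph V E) (H : MGraph V' E') (Y : Finset (V ⊕ V')) (e : E') :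
    Sum.inr e ∈ cut (dsum G H) Y ↔ e ∈ cut H (univ.filter (fun v => Sum.inr v ∈ Y)) := by
  unfold cut
  rw [Finset.mem_filter, Finset.mem_filter]
  simp only [Finset.mem_univ, true_and, Finset.mem_filter]
  show ((∃ v ∈ (H.ends e).map Sum.inr, v ∈ Y) ∧ ∃ v ∈ (H.ends e).map Sum.inr, v ∉ Y) ↔ _
  generalize H.ends e = q
  induction q using Sym2.ind with
  | _ a b => simp [Sym2.map_mk, Sym2.mem_iff]

lemma card_cut_d (G : MGraph V E) (H : MGraph V' E') (Y : Finset (V ⊕ V')) :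
    (cut (dsum G H) Y).card = (cut G (univ.filter (fun v => Sum.inl v ∈ Y))).card
      + (cut H (univ.filter (fun v => Sum.inr v ∈ Y))).card := by
  have h1 : cut (dsum G H) Y = ((cut G (univ.filter (fun v => Sum.inl v ∈ Y))).map
      ⟨Sum.inl, Sum.inl_injective⟩) ∪ ((cut H (univ.filter (fun v => Sum.inr v ∈ Y))).map
        ⟨Sum.inr, Sum.inr_injective⟩) := by
    ext x
    rcases x with e | i
    · rw [mem_cut_l]; simp
    · rw [mem_cut_r]; simp
  rw [h1, Finset.card_union_of_disjoint, Finset.card_map, Finset.card_map]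
  rw [Finset.disjoint_left]
  intro x hx hy
  rw [Finset.mem_map] at hx hy
  obtain ⟨a, _, rfl⟩ := hx
  obtain ⟨b, _, hb⟩ := hy
  exact Sum.inr_ne_inl hb

/-- The interval between `a` and `b` is empty. -/
def Gap {V E V' E' : Type} [DecidableEq V] [Fintype E] [DecidableEq V'] [Fintype E']
    (a : MGraph V E) (b : MGraph V' E') : Prop :=
  ∀ (W F : Type) [Fintype W] [DecidableEq W] [Fintype F] [DecidableEq F] [Nonempty F]
    (x : MGraph W F), CC a x → CC x b → CC x a ∨ CC b x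

/-- The bundle maps to a graph with a cut of size `s`. -/
theorem gap_iff (a : MGraph V E) (b : MGraph V' E') [Nonempty E] [Nonempty E']
    (hab : CC a b) (hba : ¬ CC b a) (s : ℕ) (hs : Odd s)
    (hsX : ∃ X, (cut b X).card = s) (hsmin : ∀ X, Odd (cut b X).card → s ≤ (cut b X).card)
    (hsa : ∀ Y, (cut a Y).card ≠ s) :
    (Gap a b ↔ (CC b (addT a (Fin s)) ∧
      ∀ (W F : Type) [Fintype W] [DecidableEq W] [Fintype F] [DecidableEq F] [Nonempty F]
        (y : MGraph W F), (∀ Z, Odd (cut y Z).card → s < (cut y Z).card) → CC y b → CC y a)) := by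
  have hlt : ∀ Y, Odd (cut a Y).card → s < (cut a Y).card := by
    intro Y hY
    obtain ⟨Z, hZ1, hZ2⟩ := mono a b hab Y hY
    have h1 := hsmin Z hZ1
    have h2 := hsa Y
    omega
  constructor
  · intro hg
    obtain ⟨s', hs', ⟨X', hX'⟩, hmin', -, hcase⟩ := gap a b hab hba hg
    have hss : s' = s := by
      obtain ⟨X, hX⟩ := hsX
      have h1 := hmin' X (by rw [hX]; exact hs)
      have h2 := hsmin X' (by rw [hX']; exact hs')
      omega
    subst hss
    refine ⟨?_, ?_⟩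
    · rcases hcase with ⟨Y, hY⟩ | ⟨-, -, h, -⟩
      · exact absurd hY (hsa Y)
      · exact h
    · intro W F _ _ _ _ _ y hy hyb
      rcases hg _ _ (dsum a y) (cc_inl a y) (cc_elim a y b hab hyb) with h | h
      · exact cc_trans _ _ _ (cc_inr a y) h
      · exfalso
        obtain ⟨X, hX⟩ := hsX
        obtain ⟨Y, hY1, hY2⟩ := mono _ _ h X (by rw [hX]; exact hs)
        rw [card_cut_d] at hY1 hY2
        rw [hX] at hY2
        by_cases hodd : Odd (cut a (univ.filter (fun v => Sum.inl v ∈ Y))).card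
        · have := hlt _ hodd
          omega
        · have hodd2 : Odd (cut y (univ.filter (fun v => Sum.inr v ∈ Y))).card := by
            rw [Nat.not_odd_iff_even] at hodd
            exact (Nat.odd_add'.1 hY1).2 hodd
          have := hy _ hodd2
          omega
  · rintro ⟨h1, h2⟩ W F _ _ _ _ _ x hax hxb
    by_cases hx : ∃ Z, (cut x Z).card = s
    · right
      obtain ⟨Z, hZ⟩ := hx
      have h3 := bundle_cc a x hax Z
      rw [hZ] at h3
      exact cc_trans _ _ _ h1 h3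
    · left
      push Not at hx
      apply h2 W F x _ hxb
      intro Z hZ
      obtain ⟨Z', hZ1, hZ2⟩ := mono x b hxb Z hZ
      have h3 := hsmin Z' hZ1
      have h4 := hx Z
      omega

end Pool.Agent.W51.CCP
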